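import Pool.Agent.MWG.Stmts

/-! Squad MWG, row RLB. -/

set_option autoImplicit false

namespace Pool.Agent.MWG.H3

open Pool.Agent.Helper14_MV Pool.Agent.Helper2_MV Pool.Agent.MVO Pool.Agent.MWL Pool.Agent.MWS

theorem rlb : RlbStmt := by
  intro k B i hB
  have key : ∀ c : ℕ, i ≤ k → ty B c i ≠ 0 → 2 ≤ deg k (ty B c) := by
    intro c hi hc
    exact hB.ml i hi c (List.count_pos_iff.1 (Nat.pos_of_ne_zero hc))
  constructor
  · intro h
    exact ⟨h, key 0 h.1 (by rw [h.2.1.1]; exact one_ne_zero), key 1 h.1 h.2.2.1⟩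
  · intro h
    exact ⟨h, key 1 h.1 (by rw [h.2.1.1]; exact one_ne_zero), key 0 h.1 h.2.2.1⟩

end Pool.Agent.MWG.H3
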